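import Pool.Agent.helper55.FLD.Spec

set_option autoImplicit false

namespace Pool.Agent.FLD

open Matrix Topology Filter Pool.Agent.GO Pool.Agent.AR

section

variable {p : ℕ} [Fact p.Prime] {B : Type} [Ring B] [Algebra ℚ_[p] B] {R : Subring B}

/-- the map `b ↦ x b x'` -/
def AD_cj (p : ℕ) [Fact p.Prime] {B : Type} [Ring B] [Algebra ℚ_[p] B] (x x' : B) :
    Module.End ℚ_[p] B where
  toFun := fun b => x * b * x'
  map_add' := fun a b => by rw [mul_add, add_mul]
  map_smul' := fun c b => by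
    rw [mul_smul_comm, smul_mul_assoc, RingHom.id_apply]

theorem AD_cj_apply (x x' b : B) : AD_cj p x x' b = x * b * x' := rfl

theorem AD_cj_pow (x x' : B) (n : ℕ) (b : B) : (AD_cj p x x' ^ n) b = x ^ n * b * x' ^ n := by
  induction n generalizing b with
  | zero => simp
  | succ n ih =>
    rw [pow_succ, Module.End.mul_apply, ih, AD_cj_apply, pow_succ, pow_succ']
    noncomm_ring

/-- the endomorphisms which preserve `R` -/
def AD_R (p : ℕ) [Fact p.Prime] {B : Type} [Ring B] [Algebra ℚ_[p] B] (R : Subring B) :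
    Subring (Module.End ℚ_[p] B) where
  carrier := {f | ∀ r ∈ R, f r ∈ R}
  mul_mem' := fun {f g} hf hg r hr => by
    rw [Module.End.mul_apply]
    exact hf _ (hg r hr)
  one_mem' := fun r hr => hr
  add_mem' := fun {f g} hf hg r hr => by
    rw [LinearMap.add_apply]
    exact R.add_mem (hf r hr) (hg r hr)
  zero_mem' := fun r _ => by
    rw [LinearMap.zero_apply]
    exact R.zero_mem
  neg_mem' := fun {f} hf r hr => by
    rw [LinearMap.neg_apply]
    exact R.neg_mem (hf r hr)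

theorem AD_dv {k : ℕ} {f : Module.End ℚ_[p] B} (h : ∀ r ∈ R, Dv p R k (f r)) :
    Dv p (AD_R p R) k f := by
  refine ⟨((p : ℚ_[p]) ^ k)⁻¹ • f, ?_, ?_⟩
  · intro r hr
    obtain ⟨s, hs, h1⟩ := h r hr
    rw [LinearMap.smul_apply, h1, smul_smul, inv_mul_cancel₀ (ppow_ne k), one_smul]
    exact hs
  · rw [smul_smul, mul_inv_cancel₀ (ppow_ne k), one_smul]

theorem AD_dv' {k : ℕ} {f : Module.End ℚ_[p] B} (h : Dv p (AD_R p R) k f) {r : B} (hr : r ∈ R) :
    Dv p R k (f r) := by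
  obtain ⟨g, hg, h1⟩ := h
  exact ⟨g r, hg r hr, by rw [h1, LinearMap.smul_apply]⟩

theorem AD_two {x x' : B} (hx : Dv p R 2 (x - 1)) (hx' : Dv p R 2 (x' - 1)) :
    Dv p (AD_R p R) 2 (AD_cj p x x' - 1) := by
  refine AD_dv fun b hb => ?_
  rw [LinearMap.sub_apply, AD_cj_apply, Module.End.one_apply]
  have e : x * b * x' - b = (x - 1) * (b * x') + b * (x' - 1) := by noncomm_ring
  rw [e]
  exact (hx.mul_right (R.mul_mem hb (mem_of_dv_sub_one hx'))).add (hx'.mul_left hb)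

/-- the main congruence -/
theorem AD_main (h1 : TA_stmt) {x x' X : B} (hxx : x * x' = 1) (hxx' : x' * x = 1)
    (hx' : Dv p R 2 (x' - 1)) (hX : X ∈ R) (hl : IsLog p R x X) (i : ℕ) {b : B} (hb : b ∈ R) :
    Dv p R (2 * i) ((AD_cj p x x' ^ p ^ i) b - b - ((p : ℚ_[p]) ^ i) • (X * b - b * X)) := by
  rw [AD_cj_pow]
  have hc : Commute x x' := by
    rw [Commute, SemiconjBy, hxx, hxx']
  have h2 : x ^ p ^ i * x' ^ p ^ i = 1 := by
    rw [← hc.mul_pow, hxx, one_pow]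
  have h3 : Dv p R (2 + i) (x' ^ p ^ i - 1) := by
    have := ((h1 p B R).2.1 i 2 x' 1 hx' (by rw [sub_self]; exact Dv.zero _)).1 hx'
    rwa [one_pow] at this
  have h4 := hl i
  have e : x ^ p ^ i * b * x' ^ p ^ i - b - ((p : ℚ_[p]) ^ i) • (X * b - b * X) =
      ((x ^ p ^ i - 1 - ((p : ℚ_[p]) ^ i) • X) * b -
        b * (x ^ p ^ i - 1 - ((p : ℚ_[p]) ^ i) • X)) * x' ^ p ^ i +
      (((p : ℚ_[p]) ^ i) • (X * b - b * X)) * (x' ^ p ^ i - 1) := by
    have e2 : b = b * (x ^ p ^ i * x' ^ p ^ i) := by rw [h2, mul_one]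
    have e3 : (((p : ℚ_[p]) ^ i) • X) * b = ((p : ℚ_[p]) ^ i) • (X * b) := smul_mul_assoc _ _ _
    have e4 : b * (((p : ℚ_[p]) ^ i) • X) = ((p : ℚ_[p]) ^ i) • (b * X) := mul_smul_comm _ _ _
    have e5 : ((x ^ p ^ i - 1 - ((p : ℚ_[p]) ^ i) • X) * b -
        b * (x ^ p ^ i - 1 - ((p : ℚ_[p]) ^ i) • X)) =
        x ^ p ^ i * b - b * x ^ p ^ i - ((p : ℚ_[p]) ^ i) • (X * b - b * X) := by
      rw [smul_sub, ← e3, ← e4]
      noncomm_ring
    rw [e5, sub_mul, sub_mul, mul_sub, mul_one]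
    have e6 : b * x ^ p ^ i * x' ^ p ^ i = b := by rw [mul_assoc, h2, mul_one]
    rw [e6]
    abel
  rw [e]
  have hx'm : x' ^ p ^ i ∈ R := R.pow_mem (mem_of_dv_sub_one hx') _
  refine Dv.add ?_ ?_
  · refine Dv.mul_right (Dv.sub ?_ ?_) hx'm
    · exact (h4.mul_right hb).mono (by omega)
    · exact (h4.mul_left hb).mono (by omega)
  · have h5 : Dv p R (0 + i) (((p : ℚ_[p]) ^ i) • (X * b - b * X)) :=
      (dv_zero_iff.2 (R.sub_mem (R.mul_mem hX hb) (R.mul_mem hb hX))).smul i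
    exact (h5.mul h3).mono (by omega)

end

theorem AD (h1 : TA_stmt) : AD_stmt := by
  intro p _ B _ _ R sep abs x x' y y' X Y hxx hxx' hyy hyy' hx hx' hy hy' hX hY hlX hlY hXY b
  have ha := AD_two hx hx'
  have ha' := AD_two hy hy'
  have hi : ∀ i : ℕ, Dv p (AD_R p R) i (AD_cj p x x' - AD_cj p y y') := by
    intro i
    refine ((h1 p (Module.End ℚ_[p] B) (AD_R p R)).2.1 i i _ _ ha ha').2 ?_
    refine AD_dv fun r hr => ?_
    have m1 := AD_main h1 hxx hxx' hx' hX hlX i hr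
    have m2 := AD_main h1 hyy hyy' hy' hY hlY i hr
    have e : X * r - r * X = Y * r - r * Y := by
      have := hXY r
      rw [sub_mul, mul_sub] at this
      rw [sub_eq_sub_iff_add_eq_add] at this ⊢
      rw [add_comm (X * r), add_comm (Y * r)]
      rw [add_comm (X * r)] at this
      rw [this]
    rw [e] at m1
    have m3 := m1.sub m2
    have e2 : (AD_cj p x x' ^ p ^ i) r - r - ((p : ℚ_[p]) ^ i) • (Y * r - r * Y) -
        ((AD_cj p y y' ^ p ^ i) r - r - ((p : ℚ_[p]) ^ i) • (Y * r - r * Y)) =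
        (AD_cj p x x' ^ p ^ i - AD_cj p y y' ^ p ^ i) r := by
      rw [LinearMap.sub_apply]
      abel
    rw [e2] at m3
    exact m3.mono (by omega)
  have hr : ∀ r ∈ R, (AD_cj p x x' - AD_cj p y y') r = 0 := fun r hr =>
    sep _ fun k => AD_dv' (hi k) hr
  obtain ⟨k, hk⟩ := abs b
  have h2 := hr _ hk
  rw [map_smul] at h2
  have h3 : (AD_cj p x x' - AD_cj p y y') b = 0 := by
    rcases smul_eq_zero.1 h2 with h | h
    · exact absurd h (ppow_ne k)
    · exact h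
  rw [LinearMap.sub_apply, sub_eq_zero] at h3
  exact h3

end Pool.Agent.FLD
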